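import Pool.Agent.H14R2.RC.Defs

/-! Task 13 (CH3): the counting lemma. -/

namespace RC14
open scoped InnerProductSpace
open Finset

namespace CH3

lemma desc (n j t : ℕ) (ht : t ≤ j) :
    n.descFactorial (j - t) * (n - j) ^ t ≤ n.descFactorial j := by
  induction t with
  | zero => simp
  | succ t ih =>
    have h1 := ih (by omega)
    refine le_trans ?_ h1
    have e : j - t = (j - (t + 1)) + 1 := by omega
    rw [e, Nat.descFactorial_succ, pow_succ]
    have h2 : n - j ≤ n - (j - (t + 1)) := by omega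
    calc n.descFactorial (j - (t + 1)) * ((n - j) ^ t * (n - j))
        = (n - j) * n.descFactorial (j - (t + 1)) * (n - j) ^ t := by ring
      _ ≤ (n - (j - (t + 1))) * n.descFactorial (j - (t + 1)) * (n - j) ^ t := by gcongr

lemma pow_choose (i : ℕ) : ∀ N j : ℕ, i ≤ j → j ≤ N → N ^ i ≤ j ^ i * N.choose i := by
  induction i with
  | zero => intro N j _ _; simp
  | succ i ih =>
    intro N j hij hjN
    obtain ⟨j, rfl⟩ : ∃ j', j = j' + 1 := ⟨j - 1, by omega⟩
    obtain ⟨N, rfl⟩ : ∃ N', N = N' + 1 := ⟨N - 1, by omega⟩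
    have h1 := ih N j (by omega) (by omega)
    have h2 : (N + 1) ^ i ≤ (j + 1) ^ i * N.choose i := by
      rcases Nat.eq_zero_or_pos j with h0 | h0
      · have : i = 0 := by omega
        subst this
        simp
      · have h3 : (N + 1) * j ≤ (j + 1) * N := by nlinarith
        have h4 : ((N + 1) * j) ^ i ≤ ((j + 1) * N) ^ i := Nat.pow_le_pow_left h3 i
        rw [mul_pow, mul_pow] at h4
        have h5 : j ^ i * (N + 1) ^ i ≤ j ^ i * ((j + 1) ^ i * N.choose i) := by
          calc j ^ i * (N + 1) ^ i = (N + 1) ^ i * j ^ i := by ring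
            _ ≤ (j + 1) ^ i * N ^ i := h4
            _ ≤ (j + 1) ^ i * (j ^ i * N.choose i) := Nat.mul_le_mul_left _ h1
            _ = _ := by ring
        exact Nat.le_of_mul_le_mul_left h5 (by positivity)
    have h6 : (N + 1) * N.choose i = (N + 1).choose (i + 1) * (i + 1) :=
      Nat.add_one_mul_choose_eq N i
    calc (N + 1) ^ (i + 1) = (N + 1) * (N + 1) ^ i := by ring
      _ ≤ (N + 1) * ((j + 1) ^ i * N.choose i) := Nat.mul_le_mul_left _ h2
      _ = (j + 1) ^ i * ((N + 1).choose (i + 1) * (i + 1)) := by rw [← h6]; ring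
      _ ≤ (j + 1) ^ i * ((N + 1).choose (i + 1) * (j + 1)) := by gcongr
      _ = _ := by ring

lemma count {j n : ℕ} (g : Equiv.Perm (Fin n)) (F : ℕ) (hF : nfix g ≤ F) (S D : Finset (Fin j))
    (hSD : Disjoint S D) (A : Finset (Tup j n)) (hfix : ∀ a ∈ A, ∀ l ∈ S, g (a l) = a l)
    (hdet : ∀ a ∈ A, ∀ a' ∈ A, (∀ l, l ∉ D → a l = a' l) → a = a') :
    A.card * (n - j) ^ (S.card + D.card) ≤ Fintype.card (Tup j n) * F ^ S.card := by
  have hcard : (S ∪ D).card = S.card + D.card := card_union_of_disjoint hSD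
  have hle : (S ∪ D).card ≤ j := by
    calc (S ∪ D).card ≤ (univ : Finset (Fin j)).card := card_le_card (subset_univ _)
      _ = j := by simp
  have h1 : A.card ≤ (nfix g) ^ S.card * n.descFactorial (j - (S.card + D.card)) := by
    have h2 : Fintype.card A ≤ Fintype.card
        ((S → {x : Fin n // g x = x}) × (((S ∪ D)ᶜ : Finset (Fin j)) ↪ Fin n)) := by
      refine Fintype.card_le_of_injective (fun a => (fun l => ⟨a.1 l, hfix a.1 a.2 l l.2⟩,
        (Function.Embedding.subtype _).trans a.1)) ?_
      intro a a' h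
      rw [Prod.mk.injEq] at h
      apply Subtype.ext
      apply hdet a.1 a.2 a'.1 a'.2
      intro l hl
      by_cases hS : l ∈ S
      · have := congrFun h.1 ⟨l, hS⟩
        exact congrArg Subtype.val this
      · have hl' : l ∈ (S ∪ D)ᶜ := by
          rw [mem_compl, mem_union]
          tauto
        have := DFunLike.congr_fun h.2 ⟨l, hl'⟩
        exact this
    rw [Fintype.card_coe, Fintype.card_prod, Fintype.card_fun, Fintype.card_embedding_eq,
      Fintype.card_coe, Fintype.card_coe, card_compl, Fintype.card_fin, Fintype.card_fin,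
      Fintype.card_subtype, hcard] at h2
    exact h2
  have h3 := desc n j (S.card + D.card) (by omega)
  rw [Fintype.card_embedding_eq, Fintype.card_fin, Fintype.card_fin]
  calc A.card * (n - j) ^ (S.card + D.card)
      ≤ ((nfix g) ^ S.card * n.descFactorial (j - (S.card + D.card))) *
        (n - j) ^ (S.card + D.card) := Nat.mul_le_mul_right _ h1
    _ = (nfix g) ^ S.card * (n.descFactorial (j - (S.card + D.card)) *
        (n - j) ^ (S.card + D.card)) := by ring
    _ ≤ F ^ S.card * n.descFactorial j := Nat.mul_le_mul (Nat.pow_le_pow_left hF _) h3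
    _ = _ := by ring

section
variable {j j1 n : ℕ}

/-- the tuples satisfying the constraints -/
noncomputable def AA (h1 : j1 ≤ j) (g : Equiv.Perm (Fin n)) (φ : Fin j1 → Option (Fin j)) : Finset (Tup j n) :=
  univ.filter (fun a => ∀ l m, φ l = some m → g (a (Fin.castLE h1 l)) = a m)

lemma mem_AA (h1 : j1 ≤ j) (g : Equiv.Perm (Fin n)) (φ : Fin j1 → Option (Fin j)) (a : Tup j n) :
    a ∈ AA h1 g φ ↔ ∀ l m, φ l = some m → g (a (Fin.castLE h1 l)) = a m := by
  simp [AA]

lemma bound (h1 : j1 ≤ j) (hj : j < n) (g : Equiv.Perm (Fin n)) (F : ℕ) (hF : nfix g ≤ F)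
    (φ : Fin j1 → Option (Fin j)) (Lg : Finset (Fin j1)) (D : Finset (Fin j))
    (hcard : Lg.card ≤ D.card)
    (hdisj : ∀ l m, φ l = some (Fin.castLE h1 l) → m ∈ D → Fin.castLE h1 l ≠ m)
    (hdet : ∀ a ∈ AA h1 g φ, ∀ a' ∈ AA h1 g φ, (∀ l, l ∉ D → a l = a' l) → a = a') :
    ((AA h1 g φ).card : ℝ) ≤ Fintype.card (Tup j n) *
      ∏ l : Fin j1, ((if φ l = some (Fin.castLE h1 l) then (F : ℝ) / ((n - j : ℕ) : ℝ) else 1) *
        (if l ∈ Lg then 1 / ((n - j : ℕ) : ℝ) else 1)) := by
  classical
  set Lf : Finset (Fin j1) := univ.filter (fun l => φ l = some (Fin.castLE h1 l)) with hLf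
  have hinj : Function.Injective (Fin.castLE h1) := Fin.castLE_injective h1
  have hN : (1 : ℝ) ≤ ((n - j : ℕ) : ℝ) := by
    have : 1 ≤ n - j := by omega
    exact_mod_cast this
  have hN0 : (0 : ℝ) < ((n - j : ℕ) : ℝ) := by linarith
  have hc := count g F hF (Lf.image (Fin.castLE h1)) D (by
    rw [Finset.disjoint_left]
    intro m hm hm'
    obtain ⟨l, hl, rfl⟩ := mem_image.mp hm
    rw [hLf, mem_filter] at hl
    exact hdisj l _ hl.2 hm' rfl) (AA h1 g φ) (by
    intro a ha m hm
    obtain ⟨l, hl, rfl⟩ := mem_image.mp hm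
    rw [hLf, mem_filter] at hl
    exact (mem_AA h1 g φ a).mp ha l _ hl.2) hdet
  rw [card_image_of_injective _ hinj] at hc
  have hprod : ∏ l : Fin j1, ((if φ l = some (Fin.castLE h1 l) then (F : ℝ) / ((n - j : ℕ) : ℝ) else 1) *
        (if l ∈ Lg then 1 / ((n - j : ℕ) : ℝ) else 1)) =
      ((F : ℝ) / ((n - j : ℕ) : ℝ)) ^ Lf.card * (1 / ((n - j : ℕ) : ℝ)) ^ Lg.card := by
    rw [prod_mul_distrib]
    congr 1
    · rw [← prod_filter, prod_const]
    · rw [← prod_filter, prod_const]
      congr 1
      congr 1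
      ext l
      simp
  rw [hprod]
  have hc' : ((AA h1 g φ).card : ℝ) * ((n - j : ℕ) : ℝ) ^ (Lf.card + D.card) ≤
      Fintype.card (Tup j n) * (F : ℝ) ^ Lf.card := by exact_mod_cast hc
  have h2 : ((n - j : ℕ) : ℝ) ^ (Lf.card + Lg.card) ≤ ((n - j : ℕ) : ℝ) ^ (Lf.card + D.card) :=
    pow_le_pow_right₀ hN (by omega)
  have h3 : ((AA h1 g φ).card : ℝ) * ((n - j : ℕ) : ℝ) ^ (Lf.card + Lg.card) ≤
      Fintype.card (Tup j n) * (F : ℝ) ^ Lf.card :=
    (mul_le_mul_of_nonneg_left h2 (by positivity)).trans hc'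
  rw [← le_div_iff₀ (by positivity)] at h3
  refine h3.trans (le_of_eq ?_)
  rw [div_pow, div_pow, one_pow, pow_add]
  field_simp

/-- constraints with larger index -/
lemma bound_gt (h1 : j1 ≤ j) (hj : j < n) (g : Equiv.Perm (Fin n)) (F : ℕ) (hF : nfix g ≤ F)
    (φ : Fin j1 → Option (Fin j)) (hne : (AA h1 g φ).Nonempty) :
    ((AA h1 g φ).card : ℝ) ≤ Fintype.card (Tup j n) *
      ∏ l : Fin j1, ((if φ l = some (Fin.castLE h1 l) then (F : ℝ) / ((n - j : ℕ) : ℝ) else 1) *
        (if l ∈ (univ.filter (fun l : Fin j1 => ∃ m, φ l = some m ∧ Fin.castLE h1 l < m))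
          then 1 / ((n - j : ℕ) : ℝ) else 1)) := by
  classical
  obtain ⟨a0, ha0⟩ := hne
  rw [mem_AA] at ha0
  have hinj : Function.Injective (Fin.castLE h1) := Fin.castLE_injective h1
  have hφ : ∀ l l' m, φ l = some m → φ l' = some m → l = l' := by
    intro l l' m h h'
    have e1 := ha0 l m h
    have e2 := ha0 l' m h'
    exact hinj (a0.injective (g.injective (e1.trans e2.symm)))
  set D : Finset (Fin j) := univ.filter (fun m => ∃ l, Fin.castLE h1 l < m ∧ φ l = some m) with hD
  refine bound h1 hj g F hF φ _ D ?_ ?_ ?_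
  · refine card_le_card_of_injOn (fun l => (φ l).getD (Fin.castLE h1 l)) ?_ ?_
    · intro l hl
      rw [mem_coe, mem_filter] at hl
      obtain ⟨_, m, hm, hlt⟩ := hl
      rw [mem_coe, hD, mem_filter]
      refine ⟨mem_univ _, l, ?_, ?_⟩
      · simp only [hm, Option.getD_some]; exact hlt
      · simp only [hm, Option.getD_some]
    · intro l hl l' hl' heq
      rw [mem_coe, mem_filter] at hl hl'
      obtain ⟨_, m, hm, hlt⟩ := hl
      obtain ⟨_, m', hm', hlt'⟩ := hl'
      simp only [hm, hm', Option.getD_some] at heq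
      subst heq
      exact hφ l l' m hm hm'
  · intro l m hl hm heq
    rw [hD, mem_filter] at hm
    obtain ⟨_, l', hlt, hl'⟩ := hm
    subst heq
    have := hφ l l' _ hl hl'
    subst this
    exact lt_irrefl _ hlt
  · intro a ha a' ha' hagree
    rw [mem_AA] at ha ha'
    have key : ∀ (k : ℕ) (m : Fin j), (m : ℕ) = k → a m = a' m := by
      intro k
      induction k using Nat.strong_induction_on with
      | _ k ih =>
        intro m hm
        by_cases hmD : m ∈ D
        · rw [hD, mem_filter] at hmD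
          obtain ⟨_, l, hlt, hl⟩ := hmD
          rw [← ha l m hl, ← ha' l m hl]
          congr 1
          exact ih (Fin.castLE h1 l : Fin j) (by rw [← hm]; exact hlt) _ rfl
        · exact hagree m hmD
    exact Function.Embedding.ext (fun m => key (m : ℕ) m rfl)

/-- constraints with smaller index, and the big ones -/
lemma bound_lt (h1 : j1 ≤ j) (hj : j < n) (g : Equiv.Perm (Fin n)) (F : ℕ) (hF : nfix g ≤ F)
    (φ : Fin j1 → Option (Fin j)) (hne : (AA h1 g φ).Nonempty) :
    ((AA h1 g φ).card : ℝ) ≤ Fintype.card (Tup j n) *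
      ∏ l : Fin j1, ((if φ l = some (Fin.castLE h1 l) then (F : ℝ) / ((n - j : ℕ) : ℝ) else 1) *
        (if l ∈ (univ.filter (fun l : Fin j1 => ∃ m, φ l = some m ∧
          (j1 ≤ (m : ℕ) ∨ m < Fin.castLE h1 l)))
          then 1 / ((n - j : ℕ) : ℝ) else 1)) := by
  classical
  obtain ⟨a0, ha0⟩ := hne
  rw [mem_AA] at ha0
  have hinj : Function.Injective (Fin.castLE h1) := Fin.castLE_injective h1
  have hφ : ∀ l l' m, φ l = some m → φ l' = some m → l = l' := by
    intro l l' m h h'
    have e1 := ha0 l m h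
    have e2 := ha0 l' m h'
    exact hinj (a0.injective (g.injective (e1.trans e2.symm)))
  set D : Finset (Fin j) := univ.filter (fun m => (j1 ≤ (m : ℕ) ∧ ∃ l, φ l = some m) ∨
    ∃ l m', φ l = some m' ∧ m' < m ∧ Fin.castLE h1 l = m) with hD
  refine bound h1 hj g F hF φ _ D ?_ ?_ ?_
  · refine card_le_card_of_injOn (fun l => if j1 ≤ (((φ l).getD (Fin.castLE h1 l) : Fin j) : ℕ) then
      (φ l).getD (Fin.castLE h1 l) else Fin.castLE h1 l) ?_ ?_
    · intro l hl
      rw [mem_coe, mem_filter] at hl
      obtain ⟨_, m, hm, hlt⟩ := hl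
      rw [mem_coe, hD, mem_filter]
      refine ⟨mem_univ _, ?_⟩
      simp only [hm, Option.getD_some]
      by_cases hb : j1 ≤ (m : ℕ)
      · rw [if_pos hb]
        left
        exact ⟨hb, l, hm⟩
      · rw [if_neg hb]
        right
        exact ⟨l, m, hm, hlt.resolve_left hb, rfl⟩
    · intro l hl l' hl' heq
      rw [mem_coe, mem_filter] at hl hl'
      obtain ⟨_, m, hm, hlt⟩ := hl
      obtain ⟨_, m', hm', hlt'⟩ := hl'
      simp only [hm, hm', Option.getD_some] at heq
      by_cases hb : j1 ≤ (m : ℕ) <;> by_cases hb' : j1 ≤ (m' : ℕ)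
      · rw [if_pos hb, if_pos hb'] at heq
        subst heq
        exact hφ l l' m hm hm'
      · rw [if_pos hb, if_neg hb'] at heq
        exfalso
        rw [heq] at hb
        have : ((Fin.castLE h1 l' : Fin j) : ℕ) = l' := rfl
        have := l'.2
        omega
      · rw [if_neg hb, if_pos hb'] at heq
        exfalso
        rw [← heq] at hb'
        have : ((Fin.castLE h1 l : Fin j) : ℕ) = l := rfl
        have := l.2
        omega
      · rw [if_neg hb, if_neg hb'] at heq
        exact hinj heq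
  · intro l m hl hm heq
    rw [hD, mem_filter] at hm
    subst heq
    rcases hm.2 with ⟨hb, l', hl'⟩ | ⟨l', m', hm', hlt, he⟩
    · have : ((Fin.castLE h1 l : Fin j) : ℕ) = l := rfl
      have := l.2
      omega
    · have := hinj he
      subst this
      rw [hl] at hm'
      have := Option.some_injective _ hm'
      subst this
      exact lt_irrefl _ hlt
  · intro a ha a' ha' hagree
    rw [mem_AA] at ha ha'
    have key : ∀ (k : ℕ) (m : Fin j), (m : ℕ) = k → a m = a' m := by
      intro k
      induction k using Nat.strong_induction_on with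
      | _ k ih =>
        intro m hm
        by_cases hmD : m ∈ D
        · rw [hD, mem_filter] at hmD
          rcases hmD.2 with ⟨hb, l, hl⟩ | ⟨l, m', hm', hlt, he⟩
          · rw [← ha l m hl, ← ha' l m hl]
            congr 1
            refine ih (Fin.castLE h1 l : Fin j) ?_ _ rfl
            have : ((Fin.castLE h1 l : Fin j) : ℕ) = l := rfl
            have := l.2
            omega
          · subst he
            apply g.injective
            rw [ha l m' hm', ha' l m' hm']
            exact ih m' (by rw [← hm]; exact hlt) _ rfl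
        · exact hagree m hmD
    exact Function.Embedding.ext (fun m => key (m : ℕ) m rfl)

/-- weights -/
noncomputable def ww (h1 : j1 ≤ j) (n F : ℕ) (l : Fin j1) (o : Option (Fin j)) : ℝ :=
  match o with
  | none => 1
  | some m => if m = Fin.castLE h1 l then (F : ℝ) / ((n - j : ℕ) : ℝ) else
      if j1 ≤ (m : ℕ) then 1 / ((n - j : ℕ) : ℝ) else 1 / Real.sqrt ((n - j : ℕ) : ℝ)

lemma ww_nonneg (h1 : j1 ≤ j) (n F : ℕ) (l : Fin j1) (o : Option (Fin j)) : 0 ≤ ww h1 n F l o := by
  unfold ww
  split
  · norm_num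
  · split_ifs <;> positivity

lemma card_AA (h1 : j1 ≤ j) (hj : j < n) (g : Equiv.Perm (Fin n)) (F : ℕ) (hF : nfix g ≤ F)
    (φ : Fin j1 → Option (Fin j)) :
    ((AA h1 g φ).card : ℝ) ≤ Fintype.card (Tup j n) * ∏ l : Fin j1, ww h1 n F l (φ l) := by
  classical
  rcases (AA h1 g φ).eq_empty_or_nonempty with he | hne
  · rw [he]
    simp only [card_empty, Nat.cast_zero]
    exact mul_nonneg (by positivity) (prod_nonneg fun l _ => ww_nonneg _ _ _ _ _)
  have hb1 := bound_gt h1 hj g F hF φ hne
  have hb2 := bound_lt h1 hj g F hF φ hne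
  have hm := mul_le_mul hb1 hb2 (by positivity) (by
    refine mul_nonneg (by positivity) (prod_nonneg fun l _ => ?_)
    split_ifs <;> positivity)
  have hN : (0 : ℝ) < ((n - j : ℕ) : ℝ) := by
    have : 1 ≤ n - j := by omega
    exact_mod_cast this
  have hsq : (((AA h1 g φ).card : ℝ)) ^ 2 ≤
      (Fintype.card (Tup j n) * ∏ l : Fin j1, ww h1 n F l (φ l)) ^ 2 := by
    rw [sq]
    refine hm.trans (le_of_eq ?_)
    rw [mul_pow, ← prod_pow, mul_mul_mul_comm, ← prod_mul_distrib, sq (Fintype.card (Tup j n) : ℝ)]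
    congr 1
    apply prod_congr rfl
    intro l _
    simp only [mem_filter, mem_univ, true_and]
    rcases hφl : φ l with _ | m
    · simp [ww]
    · by_cases h : m = Fin.castLE h1 l
      · subst h
        have h2 : ¬ (j1 ≤ (l : ℕ)) := by
          have := l.2
          omega
        simp [ww, h2]
        ring
      · have h' : ¬ (some m = some (Fin.castLE h1 l)) := fun h' => h (Option.some_injective _ h')
        have hs : Real.sqrt ((n - j : ℕ) : ℝ) ^ 2 = ((n - j : ℕ) : ℝ) := Real.sq_sqrt hN.le
        by_cases hb : j1 ≤ (m : ℕ)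
        · have h3 : Fin.castLE h1 l < m := by
            rw [Fin.lt_def]
            have : ((Fin.castLE h1 l : Fin j) : ℕ) = l := rfl
            have := l.2
            omega
          simp [ww, h, h3, hb]
          ring
        · rcases lt_or_gt_of_ne h with h3 | h3
          · have h4 : ¬ (Fin.castLE h1 l < m) := not_lt.mpr h3.le
            simp [ww, h, h3, hb, h4, hs]
          · have h4 : ¬ (m < Fin.castLE h1 l) := not_lt.mpr h3.le
            simp [ww, h, h3, hb, h4, hs]
  exact (sq_le_sq₀ (by positivity) (mul_nonneg (by positivity)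
    (prod_nonneg fun l _ => ww_nonneg _ _ _ _ _))).mp hsq

/-- one tuple -/
lemma single (h1 : j1 ≤ j) (hj : 2 * j + 2 ≤ n) (g : Equiv.Perm (Fin n)) (a : Tup j n) :
    (1 / ((n - j).choose (#{l : Fin j | a l ∉ Set.range (mv g a)})) : ℝ) ≤
      ∏ l : Fin j1, ∑ o : Option (Fin j), (match o with
        | none => (j : ℝ) / ((n - j : ℕ) : ℝ)
        | some m => if g (a (Fin.castLE h1 l)) = a m then 1 else 0) := by
  classical
  set β : ℝ := (j : ℝ) / ((n - j : ℕ) : ℝ) with hβ
  have hN : (0 : ℝ) < ((n - j : ℕ) : ℝ) := by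
    have : 1 ≤ n - j := by omega
    exact_mod_cast this
  have hβ0 : 0 ≤ β := by positivity
  have hβ1 : β ≤ 1 := by
    rw [hβ, div_le_one hN]
    have : j ≤ n - j := by omega
    exact_mod_cast this
  set i := #{l : Fin j | a l ∉ Set.range (mv g a)} with hi
  have hij : i ≤ j := by
    calc i ≤ (univ : Finset (Fin j)).card := card_le_card (filter_subset _ _)
      _ = j := by simp
  have hc := pow_choose i (n - j) j hij (by omega)
  have h2 : (1 / ((n - j).choose i : ℝ)) ≤ β ^ i := by
    have hpos : (0 : ℝ) < (n - j).choose i := by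
      exact_mod_cast Nat.choose_pos (by omega)
    rw [hβ, div_pow, div_le_div_iff₀ hpos (by positivity), one_mul]
    exact_mod_cast hc
  -- the number of coordinates leaving the range
  have h3 : i = #{l : Fin j | g (a l) ∉ Set.range a} := by
    have e1 : i = #((univ.map a) \ (univ.map (mv g a))) := by
      have : (univ.map a) \ (univ.map (mv g a)) =
          ((univ : Finset (Fin j)).filter (fun l => a l ∉ Set.range (mv g a))).map a := by
        ext x
        simp only [mem_sdiff, mem_map, mem_univ, true_and, mem_filter, Set.mem_range]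
        constructor
        · rintro ⟨⟨l, rfl⟩, h⟩
          exact ⟨l, h, rfl⟩
        · rintro ⟨l, h, rfl⟩
          exact ⟨⟨l, rfl⟩, h⟩
      rw [this, card_map]
    have e2 : #{l : Fin j | g (a l) ∉ Set.range a} = #((univ.map (mv g a)) \ (univ.map a)) := by
      have : (univ.map (mv g a)) \ (univ.map a) =
          ((univ : Finset (Fin j)).filter (fun l => g (a l) ∉ Set.range a)).map (mv g a) := by
        ext x
        simp only [mem_sdiff, mem_map, mem_univ, true_and, mem_filter, Set.mem_range]
        constructor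
        · rintro ⟨⟨l, rfl⟩, h⟩
          exact ⟨l, h, rfl⟩
        · rintro ⟨l, h, rfl⟩
          exact ⟨⟨l, rfl⟩, h⟩
      rw [this, card_map]
    rw [e1, e2]
    exact card_sdiff_comm (by simp)
  have h4 : #{l : Fin j1 | g (a (Fin.castLE h1 l)) ∉ Set.range a} ≤ i := by
    rw [h3]
    refine card_le_card_of_injOn (Fin.castLE h1) ?_ ((Fin.castLE_injective h1).injOn)
    intro l hl
    rw [mem_coe, mem_filter] at hl ⊢
    exact ⟨mem_univ _, hl.2⟩
  have h5 : β ^ i ≤ β ^ #{l : Fin j1 | g (a (Fin.castLE h1 l)) ∉ Set.range a} :=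
    pow_le_pow_of_le_one hβ0 hβ1 h4
  refine h2.trans (h5.trans ?_)
  rw [← prod_const, prod_filter]
  apply prod_le_prod
  · intro l _
    split_ifs <;> positivity
  · intro l _
    rw [Fintype.sum_option]
    have hs : 0 ≤ ∑ m : Fin j, (if g (a (Fin.castLE h1 l)) = a m then (1 : ℝ) else 0) :=
      sum_nonneg fun m _ => by split_ifs <;> norm_num
    split_ifs with h
    swap
    · change β ≤ β + ∑ m : Fin j, (if g (a (Fin.castLE h1 l)) = a m then (1 : ℝ) else 0)
      linarith
    · obtain ⟨m, hm⟩ := h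
      have : (1 : ℝ) ≤ ∑ m : Fin j, (if g (a (Fin.castLE h1 l)) = a m then (1 : ℝ) else 0) := by
        calc (1 : ℝ) = (if g (a (Fin.castLE h1 l)) = a m then (1 : ℝ) else 0) := by
              rw [if_pos hm.symm]
          _ ≤ _ := single_le_sum (f := fun m => (if g (a (Fin.castLE h1 l)) = a m then (1 : ℝ) else 0))
              (fun m _ => by positivity) (mem_univ m)
      change 1 ≤ β + ∑ m : Fin j, (if g (a (Fin.castLE h1 l)) = a m then (1 : ℝ) else 0)
      linarith

end

end CH3

open CH3 in
/-- the counting lemma -/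
theorem CH3 (j j1 n F : ℕ) (hj : 2 * j + 2 ≤ n) (h1 : j1 ≤ j) (g : Equiv.Perm (Fin n))
    (hF : nfix g ≤ F) :
    ∑ a : Tup j n,
        (1 / ((n - j).choose (#{l : Fin j | a l ∉ Set.range (mv g a)})) : ℝ) ≤
      Fintype.card (Tup j n) *
        (2 * j / ((n - j : ℕ) : ℝ) + F / ((n - j : ℕ) : ℝ) + j1 / Real.sqrt ((n - j : ℕ) : ℝ)) ^ j1 := by
  classical
  have hN : (0 : ℝ) < ((n - j : ℕ) : ℝ) := by
    have : 1 ≤ n - j := by omega
    exact_mod_cast this
  refine (sum_le_sum fun a _ => single h1 hj g a).trans ?_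
  have hexp : ∀ a : Tup j n, ∏ l : Fin j1, ∑ o : Option (Fin j), (match o with
        | none => (j : ℝ) / ((n - j : ℕ) : ℝ)
        | some m => if g (a (Fin.castLE h1 l)) = a m then 1 else 0) =
      ∑ φ : Fin j1 → Option (Fin j), ∏ l, (match φ l with
        | none => (j : ℝ) / ((n - j : ℕ) : ℝ)
        | some m => if g (a (Fin.castLE h1 l)) = a m then 1 else 0) := by
    intro a
    rw [Finset.prod_univ_sum, Fintype.piFinset_univ]
  simp_rw [hexp]
  rw [sum_comm]
  set b : Option (Fin j) → ℝ := fun o => match o with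
        | none => (j : ℝ) / ((n - j : ℕ) : ℝ)
        | some _ => 1 with hb
  have hb0 : ∀ o, 0 ≤ b o := by
    intro o
    rcases o with _ | m
    · simp only [hb]; positivity
    · simp only [hb]; norm_num
  have hφ : ∀ φ : Fin j1 → Option (Fin j), ∑ a : Tup j n, ∏ l, (match φ l with
        | none => (j : ℝ) / ((n - j : ℕ) : ℝ)
        | some m => if g (a (Fin.castLE h1 l)) = a m then 1 else 0) ≤
      Fintype.card (Tup j n) * ∏ l : Fin j1, (b (φ l) * ww h1 n F l (φ l)) := by
    intro φ
    have h2 : ∀ a : Tup j n, ∏ l, (match φ l with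
        | none => (j : ℝ) / ((n - j : ℕ) : ℝ)
        | some m => if g (a (Fin.castLE h1 l)) = a m then 1 else 0) =
        (∏ l : Fin j1, b (φ l)) * (if a ∈ AA h1 g φ then 1 else 0) := by
      intro a
      by_cases ha : a ∈ AA h1 g φ
      · rw [if_pos ha, mul_one]
        rw [mem_AA] at ha
        apply prod_congr rfl
        intro l _
        rcases hl : φ l with _ | m
        · rfl
        · simp only [hb]
          rw [if_pos (ha l m hl)]
      · rw [if_neg ha, mul_zero]
        rw [mem_AA] at ha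
        push Not at ha
        obtain ⟨l, m, hl, hne⟩ := ha
        apply prod_eq_zero (mem_univ l)
        rw [hl]
        simp only
        rw [if_neg hne]
    simp_rw [h2]
    rw [← mul_sum]
    have h3 : ∑ a : Tup j n, (if a ∈ AA h1 g φ then (1 : ℝ) else 0) = (AA h1 g φ).card := by
      rw [← sum_filter, sum_const, nsmul_eq_mul, mul_one]
      congr 2
      ext a
      simp
    rw [h3, prod_mul_distrib]
    have h4 := card_AA h1 (by omega) g F hF φ
    calc (∏ l : Fin j1, b (φ l)) * ((AA h1 g φ).card : ℝ)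
        ≤ (∏ l : Fin j1, b (φ l)) * (Fintype.card (Tup j n) * ∏ l : Fin j1, ww h1 n F l (φ l)) :=
          mul_le_mul_of_nonneg_left h4 (prod_nonneg fun l _ => hb0 _)
      _ = _ := by ring
  refine (sum_le_sum fun φ _ => hφ φ).trans ?_
  rw [← mul_sum]
  apply mul_le_mul_of_nonneg_left _ (by positivity)
  have h5 : ∑ φ : Fin j1 → Option (Fin j), ∏ l : Fin j1, (b (φ l) * ww h1 n F l (φ l)) =
      ∏ l : Fin j1, ∑ o : Option (Fin j), b o * ww h1 n F l o := by
    rw [Finset.prod_univ_sum, Fintype.piFinset_univ]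
  rw [h5]
  calc ∏ l : Fin j1, ∑ o : Option (Fin j), b o * ww h1 n F l o
      ≤ ∏ l : Fin j1, (2 * j / ((n - j : ℕ) : ℝ) + F / ((n - j : ℕ) : ℝ) +
          j1 / Real.sqrt ((n - j : ℕ) : ℝ)) := by
        apply prod_le_prod
        · intro l _
          exact sum_nonneg fun o _ => mul_nonneg (hb0 o) (ww_nonneg _ _ _ _ _)
        · intro l _
          rw [Fintype.sum_option]
          have h6 : ∀ m : Fin j, b (some m) * ww h1 n F l (some m) ≤
              (if m = Fin.castLE h1 l then (F : ℝ) / ((n - j : ℕ) : ℝ) else 0) +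
              1 / ((n - j : ℕ) : ℝ) + (if (m : ℕ) < j1 then 1 / Real.sqrt ((n - j : ℕ) : ℝ) else 0) := by
            intro m
            simp only [hb, one_mul, ww]
            have p1 : 0 ≤ 1 / ((n - j : ℕ) : ℝ) := by positivity
            have p2 : 0 ≤ 1 / Real.sqrt ((n - j : ℕ) : ℝ) := by positivity
            have p3 : (0 : ℝ) ≤ (F : ℝ) / ((n - j : ℕ) : ℝ) := by positivity
            split_ifs <;> linarith
          have h7 := sum_le_sum (s := (univ : Finset (Fin j))) fun m _ => h6 m
          rw [sum_add_distrib, sum_add_distrib, sum_ite_eq', if_pos (mem_univ _), sum_const,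
            nsmul_eq_mul, card_univ, Fintype.card_fin, ← sum_filter, sum_const, nsmul_eq_mul] at h7
          have h8 : (#{m : Fin j | (m : ℕ) < j1} : ℝ) ≤ j1 := by
            have : #{m : Fin j | (m : ℕ) < j1} ≤ (range j1).card := by
              refine card_le_card_of_injOn (fun m => (m : ℕ)) ?_ ?_
              · intro m hm
                rw [mem_coe, mem_filter] at hm
                rw [mem_coe, mem_range]
                exact hm.2
              · intro m _ m' _ h
                exact Fin.ext h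
            rw [card_range] at this
            exact_mod_cast this
          have h9 : (#{m : Fin j | (m : ℕ) < j1} : ℝ) * (1 / Real.sqrt ((n - j : ℕ) : ℝ)) ≤
              j1 * (1 / Real.sqrt ((n - j : ℕ) : ℝ)) := by gcongr
          have h10 : b none * ww h1 n F l none = (j : ℝ) / ((n - j : ℕ) : ℝ) := by
            simp [hb, ww]
          rw [h10]
          have e1 : (2 * j / ((n - j : ℕ) : ℝ) + F / ((n - j : ℕ) : ℝ) +
              j1 / Real.sqrt ((n - j : ℕ) : ℝ)) = (j : ℝ) / ((n - j : ℕ) : ℝ) +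
              ((F : ℝ) / ((n - j : ℕ) : ℝ) + j * (1 / ((n - j : ℕ) : ℝ)) +
                j1 * (1 / Real.sqrt ((n - j : ℕ) : ℝ))) := by ring
          rw [e1]
          linarith
    _ = _ := by
        rw [prod_const, card_univ, Fintype.card_fin]

end RC14
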